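import Mathlib

set_option autoImplicit false

/-! Markers on bi-infinite words and the local orientation colouring. -/

namespace Pool.Agent.Work.MP_5a7c5b_co

/-! ### Greedy markers for a rank function -/

/-- Greedy marker set: `j` is a marker iff no marker of smaller rank lies within distance `L`. -/
def mark (R : ℤ → ℕ) (L : ℤ) (j : ℤ) : Prop :=
  ∀ j' : ℤ, |j' - j| ≤ L → R j' < R j → ¬ mark R L j'
termination_by R j

theorem mark_iff (R : ℤ → ℕ) (L : ℤ) (j : ℤ) :
    mark R L j ↔ ∀ j' : ℤ, |j' - j| ≤ L → R j' < R j → ¬ mark R L j' := by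
  rw [mark]

theorem exists_mark (R : ℤ → ℕ) (L : ℤ) (hL : 0 ≤ L) (j : ℤ) :
    ∃ j', |j' - j| ≤ L ∧ mark R L j' := by
  by_cases h : mark R L j
  · exact ⟨j, by simpa using hL, h⟩
  · rw [mark_iff] at h
    push Not at h
    obtain ⟨j', h1, -, h3⟩ := h
    exact ⟨j', h1, h3⟩

theorem mark_rank_eq (R : ℤ → ℕ) (L : ℤ) (j j' : ℤ) (h : mark R L j) (h' : mark R L j')
    (hd : |j' - j| ≤ L) : R j = R j' := by
  rcases lt_trichotomy (R j) (R j') with h1 | h1 | h1
  · exact absurd h (((mark_iff R L j').1 h') j (by rw [abs_sub_comm]; exact hd) h1)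
  · exact h1
  · exact absurd h' (((mark_iff R L j).1 h) j' hd h1)

theorem mark_congr (R R' : ℤ → ℕ) (L : ℤ) (hL : 0 ≤ L) (c : ℤ) (n : ℕ) :
    ∀ m : ℤ, R' m ≤ n → (∀ k, |k - m| ≤ L * (n + 1) → R' k = R (c - k)) →
      (mark R' L m ↔ mark R L (c - m)) := by
  induction n with
  | zero =>
    intro m hm hk
    have h0 : R' m = R (c - m) := hk m (by simp; exact hL)
    constructor
    · intro _
      rw [mark_iff]
      intro j' _ h2
      omega
    · intro _
      rw [mark_iff]
      intro j' _ h2
      omega
  | succ n ih =>
    intro m hm hk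
    have h0 : R' m = R (c - m) := hk m (by simp; positivity)
    have key : ∀ j', |j' - m| ≤ L → R' j' < R' m → (mark R' L j' ↔ mark R L (c - j')) := by
      intro j' h1 h2
      apply ih j' (by omega)
      intro k hk'
      apply hk
      have : |k - m| ≤ |k - j'| + |j' - m| := by
        have := abs_add_le (k - j') (j' - m)
        simpa using this
      push_cast
      nlinarith
    have hR : ∀ j', |j' - m| ≤ L → R' j' = R (c - j') := by
      intro j' h1
      apply hk
      push_cast
      have : L * (n + 1 + 1) = L * n + L + L := by ring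
      have h3 : 0 ≤ L * n := by positivity
      linarith
    constructor
    · intro h
      rw [mark_iff] at h ⊢
      intro j' h1 h2 h3
      have h1' : |(c - j') - m| ≤ L := by
        have : (c - j') - m = -(j' - (c - m)) := by ring
        rw [this, abs_neg]; exact h1
      have h4 := hR (c - j') h1'
      have h5 : c - (c - j') = j' := by ring
      rw [h5] at h4
      have h6 : R' (c - j') < R' m := by omega
      have := (key (c - j') h1' h6)
      rw [h5] at this
      exact h (c - j') h1' h6 (this.2 h3)
    · intro h
      rw [mark_iff] at h ⊢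
      intro j' h1 h2 h3
      have h1' : |(c - j') - (c - m)| ≤ L := by
        have : (c - j') - (c - m) = -(j' - m) := by ring
        rw [this, abs_neg]; exact h1
      have h4 := hR j' h1
      exact h (c - j') h1' (by omega) ((key j' h1 h2).1 h3)

/-! ### Words, their formal inverses, ranks and orientations -/

section Words

variable {A : Type} [Encodable A] (ι : A → A)

/-- The formal inverse of a word. -/
def rv (l : List A) : List A := (l.map ι).reverse

/-- The word is smaller than its formal inverse. -/
def Pos (l : List A) : Prop := Encodable.encode l < Encodable.encode (rv ι l)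

/-- Rank of a word, common to the word and its inverse. -/
def rk (l : List A) : ℕ := min (Encodable.encode l) (Encodable.encode (rv ι l))

variable {ι}

omit [Encodable A] in
theorem rv_rv (hι : ∀ a, ι (ι a) = a) (l : List A) : rv ι (rv ι l) = l := by
  unfold rv
  rw [List.map_reverse, List.reverse_reverse, List.map_map]
  conv_rhs => rw [← List.map_id l]
  apply List.map_congr_left
  intro a _
  simp [hι]

theorem rk_rv (hι : ∀ a, ι (ι a) = a) (l : List A) : rk ι (rv ι l) = rk ι l := by
  unfold rk
  rw [rv_rv hι, min_comm]

theorem rk_eq (hι : ∀ a, ι (ι a) = a) {l l' : List A} (h : rk ι l = rk ι l') :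
    l = l' ∨ l = rv ι l' := by
  unfold rk at h
  rcases min_choice (Encodable.encode l) (Encodable.encode (rv ι l)) with h1 | h1 <;>
  rcases min_choice (Encodable.encode l') (Encodable.encode (rv ι l')) with h2 | h2 <;>
  rw [h1, h2] at h
  · left; exact Encodable.encode_injective h
  · right; exact Encodable.encode_injective h
  · right
    have := Encodable.encode_injective h
    rw [← this, rv_rv hι]
  · left
    have := Encodable.encode_injective h
    rw [← rv_rv hι l, this, rv_rv hι]

theorem pos_rv (hι : ∀ a, ι (ι a) = a) {l : List A} (h : l ≠ rv ι l) :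
    Pos ι (rv ι l) ↔ ¬ Pos ι l := by
  unfold Pos
  rw [rv_rv hι]
  have : Encodable.encode l ≠ Encodable.encode (rv ι l) := fun h' =>
    h (Encodable.encode_injective h')
  omega

variable (ι)

/-- The subword of `V` starting at `x`, of length `n`. -/
def seg (V : ℤ → A) (x : ℤ) (n : ℕ) : List A := (List.range n).map (fun t : ℕ => V (x + t))

variable {ι}

omit [Encodable A] in
@[simp] theorem seg_length (V : ℤ → A) (x : ℤ) (n : ℕ) : (seg V x n).length = n := by
  simp [seg]

omit [Encodable A] in
theorem seg_rev (V V' : ℤ → A) (c x : ℤ) (n : ℕ)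
    (h : ∀ k, x ≤ k → k < x + n → V' k = ι (V (c - k))) :
    seg V' x n = rv ι (seg V (c - x - n + 1) n) := by
  unfold rv
  apply List.ext_getElem
  · simp
  · intro t h1 h2
    have ht : t < n := by simpa using h1
    simp only [seg, List.getElem_map, List.getElem_range, List.getElem_reverse, List.length_map,
      List.length_range]
    rw [h _ (by omega) (by omega)]
    congr 2
    have : ((n - 1 - t : ℕ) : ℤ) = (n : ℤ) - 1 - t := by omega
    rw [this]
    ring

omit [Encodable A] in
theorem seg_eq_rev (V : ℤ → A) (x x' : ℤ) (n : ℕ)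
    (h : seg V x n = rv ι (seg V x' n)) (k : ℤ) (h1 : x ≤ k) (h2 : k < x + n) :
    V k = ι (V (x + x' + n - 1 - k)) := by
  unfold rv at h
  obtain ⟨t, rfl⟩ : ∃ t : ℕ, k = x + t := ⟨(k - x).toNat, by omega⟩
  have ht : t < n := by omega
  have h3 : (seg V x n)[t]'(by simpa using ht) = V (x + t) := by
    simp [seg]
  have h4 : (((seg V x' n).map ι).reverse)[t]'(by simpa using ht) =
      ι (V (x + x' + n - 1 - (x + t))) := by
    simp only [seg, List.getElem_map, List.getElem_range, List.getElem_reverse, List.length_map,
      List.length_range]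
    congr 2
    have : ((n - 1 - t : ℕ) : ℤ) = (n : ℤ) - 1 - t := by omega
    rw [this]
    ring
  rw [← h3, ← h4]
  congr 1

/-- No reflection of the word fixes position `k` or the gap after `k`. -/
def Good (ι : A → A) (V : ℤ → A) (k : ℤ) : Prop := V k ≠ ι (V k) ∧ V (k + 1) ≠ ι (V k)

omit [Encodable A] in
theorem no_selfrev (hι : ∀ a, ι (ι a) = a) (V : ℤ → A) (x x' : ℤ) (n : ℕ)
    (hgood : ∀ k, x ≤ k → k < x + n → Good ι V k)
    (heq : seg V x n = rv ι (seg V x' n)) (hc1 : 2 * x ≤ x + x' + n - 1)
    (hc2 : x + x' + n - 1 < 2 * (x + n)) : False := by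
  set c := x + x' + n - 1 with hc
  have key := seg_eq_rev V x x' n heq
  have hk1 : x ≤ c / 2 := by omega
  have hk2 : c / 2 < x + n := by omega
  have hg := hgood (c / 2) hk1 hk2
  have he := key (c / 2) hk1 hk2
  rcases Int.even_or_odd' c with ⟨q, hq | hq⟩
  · have : c / 2 = q := by omega
    rw [← hc] at he
    rw [this] at he hg
    have h3 : c - q = q := by omega
    rw [h3] at he
    exact hg.1 he
  · have : c / 2 = q := by omega
    rw [← hc] at he
    rw [this] at he hg
    have h3 : c - q = q + 1 := by omega
    rw [h3] at he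
    apply hg.2
    rw [he, hι]

end Words

end Pool.Agent.Work.MP_5a7c5b_co
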