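import Mathlib
import Pool.Agent.Work.MP_5a7c5b_co.Marker

set_option autoImplicit false

/-! The local 4-colouring of positions in a word. -/

namespace Pool.Agent.Work.MP_5a7c5b_co

section Color

variable {A : Type} [Encodable A] (ι : A → A)

/-- The window of radius `r` around position `j`. -/
def win (r : ℕ) (V : ℤ → A) (j : ℤ) : List A := seg V (j - r) (2 * r + 1)

/-- Markers of the word `V`. -/
def M (r : ℕ) (L : ℤ) (V : ℤ → A) (j : ℤ) : Prop := mark (fun i => rk ι (win r V i)) L j

/-- Orientation of the marker-free stretch containing `i`. -/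
def TO (r : ℕ) (L : ℤ) (V : ℤ → A) (i : ℤ) : Prop :=
  ∃ x y : ℤ, x < i ∧ i < y ∧ M ι r L V x ∧ M ι r L V y ∧
    (∀ z, x < z → z < y → ¬ M ι r L V z) ∧ Pos ι (seg V x (y - x + 1).toNat)

open Classical in
/-- The local colour at position `i`. -/
noncomputable def col (r : ℕ) (L D : ℤ) (V : ℤ → A) (i : ℤ) : Fin 4 :=
  if ∃ m, |m - i| ≤ D ∧ M ι r L V m ∧ Pos ι (win r V m) then 0
  else if ∃ m, |m - i| ≤ D ∧ M ι r L V m then 1
  else if TO ι r L V i then 2 else 3

variable {ι}

theorem exists_bound [Finite A] (r : ℕ) :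
    ∃ B : ℕ, ∀ l : List A, l.length = 2 * r + 1 → rk ι l ≤ B := by
  have hfin : {l : List A | l.length = 2 * r + 1}.Finite := List.finite_length_eq A _
  obtain ⟨B, hB⟩ := (hfin.image (rk ι)).bddAbove
  exact ⟨B, fun l hl => hB ⟨l, hl, rfl⟩⟩

omit [Encodable A] in
theorem win_rev (r : ℕ) (V V' : ℤ → A) (c m : ℤ)
    (h : ∀ k, |k - m| ≤ r → V' k = ι (V (c - k))) :
    win r V' m = rv ι (win r V (c - m)) := by
  unfold win
  rw [seg_rev V V' c]
  · congr 2
    push_cast
    ring
  · intro k h1 h2
    apply h
    rw [abs_le]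
    push_cast at h2
    constructor <;> linarith

theorem M_congr (hι : ∀ a, ι (ι a) = a) (r : ℕ) (L : ℤ) (hL : 0 ≤ L) (B : ℕ)
    (hB : ∀ l : List A, l.length = 2 * r + 1 → rk ι l ≤ B)
    (V V' : ℤ → A) (c m : ℤ)
    (h : ∀ k, |k - m| ≤ r + L * (B + 1) → V' k = ι (V (c - k))) :
    M ι r L V' m ↔ M ι r L V (c - m) := by
  unfold M
  apply mark_congr _ _ L hL c B m
  · exact hB _ (by simp [win])
  · intro k hk
    show rk ι (win r V' k) = rk ι (win r V (c - k))
    rw [win_rev r V V' c k, rk_rv hι]
    intro k' hk'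
    apply h
    have := abs_add_le (k' - k) (k - m)
    have h2 : k' - k + (k - m) = k' - m := by ring
    rw [h2] at this
    linarith

/-- `V'` around position `i'` is the formal inverse of `V` around position `c - i'`. -/
theorem exists_consecutive (r : ℕ) (L D : ℤ) (hL : 0 ≤ L) (V : ℤ → A) (i : ℤ) (hD : 0 ≤ D)
    (hno : ¬ ∃ m, |m - i| ≤ D ∧ M ι r L V m) :
    ∃ x y : ℤ, x < i - D ∧ i + D < y ∧ i - 2 * L - 1 ≤ x ∧ y ≤ i + 2 * L + 1 ∧
      M ι r L V x ∧ M ι r L V y ∧ (∀ z, x < z → z < y → ¬ M ι r L V z) := by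
  classical
  push Not at hno
  -- left marker
  have hl : ∃ a : ℕ, M ι r L V (i - a) := by
    obtain ⟨j', h1, h2⟩ := exists_mark (fun i => rk ι (win r V i)) L hL (i - L - 1)
    rw [abs_le] at h1
    refine ⟨(i - j').toNat, ?_⟩
    have : i - ((i - j').toNat : ℤ) = j' := by omega
    rw [this]; exact h2
  have hr : ∃ a : ℕ, M ι r L V (i + a) := by
    obtain ⟨j', h1, h2⟩ := exists_mark (fun i => rk ι (win r V i)) L hL (i + L + 1)
    rw [abs_le] at h1
    refine ⟨(j' - i).toNat, ?_⟩
    have : i + ((j' - i).toNat : ℤ) = j' := by omega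
    rw [this]; exact h2
  have ha := Nat.find_spec hl
  have hb := Nat.find_spec hr
  have ha' : ∀ a : ℕ, a < Nat.find hl → ¬ M ι r L V (i - a) := fun a h => Nat.find_min hl h
  have hb' : ∀ a : ℕ, a < Nat.find hr → ¬ M ι r L V (i + a) := fun a h => Nat.find_min hr h
  have hal : (Nat.find hl : ℤ) ≤ 2 * L + 1 := by
    obtain ⟨j', h1, h2⟩ := exists_mark (fun i => rk ι (win r V i)) L hL (i - L - 1)
    rw [abs_le] at h1
    by_contra hcon
    apply ha' (i - j').toNat (by omega)
    have : i - ((i - j').toNat : ℤ) = j' := by omega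
    rw [this]; exact h2
  have hbl : (Nat.find hr : ℤ) ≤ 2 * L + 1 := by
    obtain ⟨j', h1, h2⟩ := exists_mark (fun i => rk ι (win r V i)) L hL (i + L + 1)
    rw [abs_le] at h1
    by_contra hcon
    apply hb' (j' - i).toNat (by omega)
    have : i + ((j' - i).toNat : ℤ) = j' := by omega
    rw [this]; exact h2
  refine ⟨i - Nat.find hl, i + Nat.find hr, ?_, ?_, by linarith, by linarith, ha, hb, ?_⟩
  · by_contra hcon
    apply hno _ _ ha
    rw [abs_le]; constructor <;> linarith [Int.natCast_nonneg (Nat.find hl)]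
  · by_contra hcon
    apply hno _ _ hb
    rw [abs_le]; constructor <;> linarith [Int.natCast_nonneg (Nat.find hr)]
  · intro z h1 h2 h3
    rcases le_total z i with h4 | h4
    · apply ha' (i - z).toNat (by omega)
      have : i - ((i - z).toNat : ℤ) = z := by omega
      rw [this]; exact h3
    · apply hb' (z - i).toNat (by omega)
      have : i + ((z - i).toNat : ℤ) = z := by omega
      rw [this]; exact h3

/-- The main local lemma: `V` near `i` and `V'` near `i'` get different colours if `V'` is the
formal inverse of `V`, reflected about `c / 2`, and `c - i'` is within `N` of `i`. -/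
theorem col_ne (hι : ∀ a, ι (ι a) = a) (r : ℕ) (L D N : ℤ) (hN : 0 ≤ N) (hD : N ≤ D)
    (hL : 2 * D + N ≤ L) (hr : L ≤ 2 * r) (B : ℕ)
    (hB : ∀ l : List A, l.length = 2 * r + 1 → rk ι l ≤ B)
    (V V' : ℤ → A) (c i i' : ℤ) (hc : |c - i' - i| ≤ N)
    (hgood : ∀ k, |k - i| ≤ 2 * L + r + 1 → Good ι V k)
    (h : ∀ k, |k - i'| ≤ 3 * L + 2 * r + 1 + L * (B + 1) → V' k = ι (V (c - k))) :
    col ι r L D V i ≠ col ι r L D V' i' := by
  classical
  have hL0 : 0 ≤ L := by linarith
  have hD0 : 0 ≤ D := by linarith
  have hr0 : (0 : ℤ) ≤ r := by positivity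
  have hLB : 0 ≤ L * (B + 1) := by positivity
  -- transfer of markers
  have hM : ∀ m, |m - i'| ≤ 3 * L + 1 → (M ι r L V' m ↔ M ι r L V (c - m)) := by
    intro m hm
    apply M_congr hι r L hL0 B hB
    intro k hk
    apply h
    have := abs_add_le (k - m) (m - i')
    have h2 : k - m + (m - i') = k - i' := by ring
    rw [h2] at this
    linarith
  have hW : ∀ m, |m - i'| ≤ 3 * L + 1 → win r V' m = rv ι (win r V (c - m)) := by
    intro m hm
    apply win_rev
    intro k hk
    apply h
    have := abs_add_le (k - m) (m - i')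
    have h2 : k - m + (m - i') = k - i' := by ring
    rw [h2] at this
    linarith
  -- windows near i are not self-inverse
  have hself : ∀ m m', |m - i| ≤ 2 * L → |m' - m| ≤ L → win r V m ≠ rv ι (win r V m') := by
    intro m m' hm hm' heq
    rw [abs_le] at hm hm'
    unfold win at heq
    apply no_selfrev hι V (m - r) (m' - r) (2 * r + 1) _ heq
    · push_cast; linarith
    · push_cast; linarith
    · intro k h1 h2
      apply hgood
      push_cast at h2
      rw [abs_le]
      constructor <;> linarith
  rw [abs_le] at hc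
  -- the two marker colours
  have hcase : ∀ m m', |m - i| ≤ D → |m' - i'| ≤ D → M ι r L V m → M ι r L V' m' →
      (Pos ι (win r V m) ↔ ¬ Pos ι (win r V' m')) := by
    intro m m' hm hm' h1 h2
    rw [abs_le] at hm hm'
    have hm'3 : |m' - i'| ≤ 3 * L + 1 := by rw [abs_le]; constructor <;> linarith
    rw [hM m' hm'3] at h2
    rw [hW m' hm'3]
    have hd : |(c - m') - m| ≤ L := by rw [abs_le]; constructor <;> linarith
    have hrk := mark_rank_eq _ L m (c - m') h1 h2 hd
    have hneq : win r V (c - m') ≠ rv ι (win r V (c - m')) := by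
      apply hself
      · rw [abs_le]; constructor <;> linarith
      · simpa using hL0
    rw [pos_rv hι hneq, not_not]
    rcases rk_eq hι hrk with h3 | h3
    · rw [h3]
    · exfalso
      exact hself m (c - m') (by rw [abs_le]; constructor <;> linarith) hd h3
  intro heq
  unfold col at heq
  by_cases hA : ∃ m, |m - i| ≤ D ∧ M ι r L V m
  · obtain ⟨m, hm1, hm2⟩ := hA
    by_cases hA' : ∃ m, |m - i'| ≤ D ∧ M ι r L V' m
    · obtain ⟨m', hm1', hm2'⟩ := hA'
      by_cases hP : ∃ m, |m - i| ≤ D ∧ M ι r L V m ∧ Pos ι (win r V m)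
      · rw [if_pos hP] at heq
        by_cases hP' : ∃ m, |m - i'| ≤ D ∧ M ι r L V' m ∧ Pos ι (win r V' m)
        · obtain ⟨a, ha1, ha2, ha3⟩ := hP
          obtain ⟨b, hb1, hb2, hb3⟩ := hP'
          exact ((hcase a b ha1 hb1 ha2 hb2).1 ha3) hb3
        · rw [if_neg hP', if_pos ⟨m', hm1', hm2'⟩] at heq
          exact absurd heq (by decide)
      · rw [if_neg hP, if_pos ⟨m, hm1, hm2⟩] at heq
        by_cases hP' : ∃ m, |m - i'| ≤ D ∧ M ι r L V' m ∧ Pos ι (win r V' m)
        · rw [if_pos hP'] at heq
          exact absurd heq (by decide)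
        · have h1 : ¬ Pos ι (win r V m) := fun h => hP ⟨m, hm1, hm2, h⟩
          have h2 : ¬ Pos ι (win r V' m') := fun h => hP' ⟨m', hm1', hm2', h⟩
          exact h1 ((hcase m m' hm1 hm1' hm2 hm2').2 h2)
    · have hP' : ¬ ∃ m, |m - i'| ≤ D ∧ M ι r L V' m ∧ Pos ι (win r V' m) := by
        rintro ⟨m, h1, h2, -⟩; exact hA' ⟨m, h1, h2⟩
      rw [if_neg hP', if_neg hA'] at heq
      have hA2 : ∃ m, |m - i| ≤ D ∧ M ι r L V m := ⟨m, hm1, hm2⟩
      rw [if_pos hA2] at heq
      split_ifs at heq <;> exact absurd heq (by decide)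
  · have hP : ¬ ∃ m, |m - i| ≤ D ∧ M ι r L V m ∧ Pos ι (win r V m) := by
      rintro ⟨m, h1, h2, -⟩; exact hA ⟨m, h1, h2⟩
    rw [if_neg hP, if_neg hA] at heq
    by_cases hA' : ∃ m, |m - i'| ≤ D ∧ M ι r L V' m
    · rw [if_pos hA'] at heq
      split_ifs at heq <;> exact absurd heq (by decide)
    · have hP' : ¬ ∃ m, |m - i'| ≤ D ∧ M ι r L V' m ∧ Pos ι (win r V' m) := by
        rintro ⟨m, h1, h2, -⟩; exact hA' ⟨m, h1, h2⟩
      rw [if_neg hP', if_neg hA'] at heq
      -- the marker-free case
      obtain ⟨x, y, hx1, hy1, hx2, hy2, hMx, hMy, hno⟩ :=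
        exists_consecutive r L D hL0 V i hD0 hA
      obtain ⟨x', y', hx1', hy1', hx2', hy2', hMx', hMy', hno'⟩ :=
        exists_consecutive r L D hL0 V' i' hD0 hA'
      -- uniqueness of the stretch
      have huniq : ∀ (W : ℤ → A) (j x y x' y' : ℤ), x < j → j < y → x' < j → j < y' →
          M ι r L W x → M ι r L W y → M ι r L W x' → M ι r L W y' →
          (∀ z, x < z → z < y → ¬ M ι r L W z) → (∀ z, x' < z → z < y' → ¬ M ι r L W z) →
          x = x' ∧ y = y' := by
        intro W j x y x' y' h1 h2 h3 h4 h5 h6 h7 h8 h9 h10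
        constructor
        · rcases lt_trichotomy x x' with h | h | h
          · exact absurd h7 (h9 x' h (by linarith))
          · exact h
          · exact absurd h5 (h10 x h (by linarith))
        · rcases lt_trichotomy y y' with h | h | h
          · exact absurd h6 (h10 y (by linarith) h)
          · exact h
          · exact absurd h8 (h9 y' (by linarith) h)
      have hTO : TO ι r L V i ↔ Pos ι (seg V x (y - x + 1).toNat) := by
        constructor
        · rintro ⟨a, b, ha, hb, hMa, hMb, hab, hPab⟩
          obtain ⟨h1, h2⟩ := huniq V i x y a b (by linarith) (by linarith) ha hb hMx hMy hMa hMb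
            hno hab
          rw [h1, h2]; exact hPab
        · intro hP
          exact ⟨x, y, by linarith, by linarith, hMx, hMy, hno, hP⟩
      have hTO' : TO ι r L V' i' ↔ Pos ι (seg V' x' (y' - x' + 1).toNat) := by
        constructor
        · rintro ⟨a, b, ha, hb, hMa, hMb, hab, hPab⟩
          obtain ⟨h1, h2⟩ := huniq V' i' x' y' a b (by linarith) (by linarith) ha hb hMx' hMy'
            hMa hMb hno' hab
          rw [h1, h2]; exact hPab
        · intro hP
          exact ⟨x', y', by linarith, by linarith, hMx', hMy', hno', hP⟩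
      -- reflect the stretch of V'
      have hMx'' : M ι r L V (c - x') :=
        (hM x' (by rw [abs_le]; constructor <;> linarith)).1 hMx'
      have hMy'' : M ι r L V (c - y') :=
        (hM y' (by rw [abs_le]; constructor <;> linarith)).1 hMy'
      have hno'' : ∀ z, c - y' < z → z < c - x' → ¬ M ι r L V z := by
        intro z h1 h2 h3
        have h4 := hM (c - z) (by rw [abs_le]; constructor <;> linarith)
        have h5 : c - (c - z) = z := by ring
        rw [h5] at h4
        exact hno' (c - z) (by linarith) (by linarith) (h4.2 h3)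
      obtain ⟨e1, e2⟩ := huniq V i x y (c - y') (c - x') (by linarith) (by linarith)
        (by linarith) (by linarith) hMx hMy hMy'' hMx'' hno hno''
      have hsegeq : seg V' x' (y' - x' + 1).toNat = rv ι (seg V x (y - x + 1).toNat) := by
        have hlen : (y' - x' + 1).toNat = (y - x + 1).toNat := by
          congr 1; linarith
        rw [seg_rev V V' c]
        · rw [hlen]
          congr 2
          have : (((y - x + 1).toNat : ℕ) : ℤ) = y - x + 1 := by
            apply Int.toNat_of_nonneg; linarith
          rw [this]; linarith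
        · intro k h1 h2
          apply h
          have : (((y' - x' + 1).toNat : ℕ) : ℤ) = y' - x' + 1 := by
            apply Int.toNat_of_nonneg; linarith
          rw [this] at h2
          rw [abs_le]; constructor <;> linarith
      have hlen : (((y - x + 1).toNat : ℕ) : ℤ) = y - x + 1 := by
        apply Int.toNat_of_nonneg; linarith
      have hneq : seg V x (y - x + 1).toNat ≠ rv ι (seg V x (y - x + 1).toNat) := by
        intro he
        apply no_selfrev hι V x x _ _ he
        · rw [hlen]; linarith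
        · rw [hlen]; linarith
        · intro k h1 h2
          apply hgood
          rw [hlen] at h2
          rw [abs_le]; constructor <;> linarith
      have hflip : Pos ι (seg V' x' (y' - x' + 1).toNat) ↔
          ¬ Pos ι (seg V x (y - x + 1).toNat) := by
        rw [hsegeq, pos_rv hι hneq]
      by_cases hT : TO ι r L V i
      · have hT' : ¬ TO ι r L V' i' := by
          rw [hTO', hflip, not_not, ← hTO]; exact hT
        rw [if_pos hT, if_neg hT'] at heq
        exact absurd heq (by decide)
      · have hT' : TO ι r L V' i' := by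
          rw [hTO', hflip, ← hTO]; exact hT
        rw [if_neg hT, if_pos hT'] at heq
        exact absurd heq (by decide)

end Color

end Pool.Agent.Work.MP_5a7c5b_co
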