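import Mathlib
import Pool.Agent.Work.MP_5a7c5b_co.Color

set_option autoImplicit false

/-! Reduced words of the free group of rank two. -/

namespace Pool.Agent.Work.MP_5a7c5b_co

open FreeGroup

/-- Letters, with a blank. -/
abbrev Letter := Option (Fin 2 × Bool)

/-- The formal inverse of a letter. -/
def inv' : Letter → Letter := Option.map (fun p => (p.1, !p.2))

theorem inv'_inv' (a : Letter) : inv' (inv' a) = a := by
  unfold inv'
  cases a <;> simp

/-- The word as a function on the integers, blank outside. -/
def fn (w : List (Fin 2 × Bool)) (k : ℤ) : Letter := if 0 ≤ k then w[k.toNat]? else none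

theorem fn_append_right (p s : List (Fin 2 × Bool)) (k : ℤ) (hk : 0 ≤ k) :
    fn (p ++ s) (k + p.length) = fn s k := by
  unfold fn
  rw [if_pos (by positivity), if_pos hk]
  have : (k + (p.length : ℤ)).toNat = p.length + k.toNat := by omega
  rw [this, List.getElem?_append_right (by omega)]
  congr 1
  omega

theorem fn_append_left (s p : List (Fin 2 × Bool)) (k : ℤ) (hk : k < s.length) :
    fn (s ++ p) k = fn s k := by
  unfold fn
  by_cases h0 : 0 ≤ k
  · rw [if_pos h0, if_pos h0, List.getElem?_append_left (by omega)]
  · rw [if_neg h0, if_neg h0]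

theorem fn_invRev (w : List (Fin 2 × Bool)) (k : ℤ) :
    fn (invRev w) k = inv' (fn w (w.length - 1 - k)) := by
  unfold fn
  by_cases h0 : 0 ≤ k
  · rw [if_pos h0]
    by_cases h1 : k < w.length
    · rw [if_pos (by omega)]
      unfold invRev
      rw [List.getElem?_reverse (by simp; omega)]
      rw [List.getElem?_map]
      unfold inv'
      congr 2
      simp only [List.length_map]
      omega
    · rw [if_neg (by omega)]
      have : (invRev w)[k.toNat]? = none := by
        apply List.getElem?_eq_none
        rw [invRev_length]; omega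
      rw [this]; rfl
  · rw [if_neg h0]
    rw [if_pos (by omega)]
    have : w[(w.length - 1 - k : ℤ).toNat]? = none := by
      apply List.getElem?_eq_none
      omega
    rw [this]; rfl

theorem good_fn (w : List (Fin 2 × Bool)) (hw : FreeGroup.IsReduced w) (k : ℤ) (h0 : 0 ≤ k)
    (h1 : k + 1 < w.length) : Good inv' (fn w) k := by
  obtain ⟨n, rfl⟩ : ∃ n : ℕ, k = n := ⟨k.toNat, by omega⟩
  have hn : n + 1 < w.length := by omega
  have e1 : fn w (n : ℤ) = some (w[n]'(by omega)) := by
    unfold fn
    rw [if_pos h0]
    simp
  have e2 : fn w ((n : ℤ) + 1) = some (w[n + 1]'hn) := by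
    unfold fn
    rw [if_pos (by omega)]
    have : ((n : ℤ) + 1).toNat = n + 1 := by omega
    rw [this]
    simp
  unfold FreeGroup.IsReduced at hw
  have h3 := (List.isChain_iff_getElem.1 hw) n (by omega)
  refine ⟨?_, ?_⟩
  · rw [e1]
    unfold inv'
    intro h
    simp only [Option.map_some, Option.some.injEq] at h
    have := congrArg Prod.snd h
    simp at this
  · rw [e1, e2]
    unfold inv'
    intro h
    simp only [Option.map_some, Option.some.injEq] at h
    have h4 := congrArg Prod.fst h
    have h5 := congrArg Prod.snd h
    simp only at h4 h5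
    have h6 := h3 h4.symm
    rw [← h6] at h5
    simp at h5

theorem mul_left_structure_aux (l : List (Fin 2 × Bool)) (x : FreeGroup (Fin 2)) :
    ∃ p q s : List (Fin 2 × Bool), x.toWord = p ++ s ∧ (FreeGroup.mk l * x).toWord = q ++ s ∧
      p.length ≤ l.length ∧ q.length ≤ l.length := by
  induction l with
  | nil =>
    refine ⟨[], [], x.toWord, by simp, ?_, by simp, by simp⟩
    have : (FreeGroup.mk ([] : List (Fin 2 × Bool))) = 1 := rfl
    rw [this, one_mul]; simp
  | cons h t ih =>
    obtain ⟨p, q, s, h1, h2, h3, h4⟩ := ih
    have e : FreeGroup.mk (h :: t) * x = FreeGroup.mk [h] * (FreeGroup.mk t * x) := by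
      rw [← mul_assoc, mul_mk]; rfl
    have e2 : (FreeGroup.mk [h] * (FreeGroup.mk t * x)).toWord = reduce (h :: (q ++ s)) := by
      rw [toWord_mul, h2]
      have : (FreeGroup.mk [h]).toWord = [h] := by rw [toWord_mk]; rfl
      rw [this]; rfl
    have hred : reduce (q ++ s) = q ++ s := by
      rw [← h2, reduce_toWord]
    have e3 : reduce (h :: (q ++ s)) = List.casesOn (q ++ s) [h] fun hd tl =>
        if h.1 = hd.1 ∧ h.2 = not hd.2 then tl else h :: hd :: tl := by
      rw [reduce.cons, hred]
    rw [e, e2, e3]
    cases q with
    | cons q0 q' =>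
      simp only [List.cons_append]
      by_cases hc : h.1 = q0.1 ∧ h.2 = not q0.2
      · refine ⟨p, q', s, h1, ?_, ?_, ?_⟩
        · simp [hc]
        · simp; omega
        · simp at h4 ⊢; omega
      · refine ⟨p, h :: q0 :: q', s, h1, ?_, ?_, ?_⟩
        · simp only [if_neg hc, List.cons_append]
        · simp; omega
        · simp at h4 ⊢; omega
    | nil =>
      simp only [List.nil_append]
      cases s with
      | nil =>
        refine ⟨p, [h], [], h1, by simp, ?_, ?_⟩
        · simp; omega
        · simp
      | cons s0 s' =>
        by_cases hc : h.1 = s0.1 ∧ h.2 = not s0.2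
        · refine ⟨p ++ [s0], [], s', by simp [h1], ?_, ?_, ?_⟩
          · simp [hc]
          · simp; omega
          · simp
        · refine ⟨p, [h], s0 :: s', h1, ?_, ?_, ?_⟩
          · simp only [if_neg hc, List.cons_append, List.nil_append]
          · simp; omega
          · simp

theorem mul_left_structure (g x : FreeGroup (Fin 2)) :
    ∃ p q s : List (Fin 2 × Bool), x.toWord = p ++ s ∧ (g * x).toWord = q ++ s ∧
      p.length ≤ g.toWord.length ∧ q.length ≤ g.toWord.length := by
  have := mul_left_structure_aux g.toWord x
  rwa [mk_toWord] at this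

theorem mul_right_structure (g x : FreeGroup (Fin 2)) :
    ∃ p q s : List (Fin 2 × Bool), x.toWord = s ++ p ∧ (x * g).toWord = s ++ q ∧
      p.length ≤ g.toWord.length ∧ q.length ≤ g.toWord.length := by
  obtain ⟨p, q, s, h1, h2, h3, h4⟩ := mul_left_structure g⁻¹ x⁻¹
  refine ⟨invRev p, invRev q, invRev s, ?_, ?_, ?_, ?_⟩
  · have : x.toWord = invRev (x⁻¹).toWord := by rw [toWord_inv, invRev_invRev]
    rw [this, h1]
    simp [invRev]
  · have : (x * g).toWord = invRev ((g⁻¹ * x⁻¹)).toWord := by
      rw [← mul_inv_rev, toWord_inv, invRev_invRev]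
    rw [this, h2]
    simp [invRev]
  · rw [toWord_inv, invRev_length] at h3
    rw [invRev_length]; exact h3
  · rw [toWord_inv, invRev_length] at h4
    rw [invRev_length]; exact h4

/-- The reflected element `g a⁻¹ g` reads, in its middle part, as the formal inverse of `a`. -/
theorem reflect_structure (g a : FreeGroup (Fin 2)) :
    ∃ c : ℤ,
      |2 * c - a.toWord.length - (g * a⁻¹ * g).toWord.length| ≤ 2 * g.toWord.length + 2 ∧
      |(a.toWord.length : ℤ) - (g * a⁻¹ * g).toWord.length| ≤ 2 * g.toWord.length ∧
      ∀ k : ℤ, g.toWord.length ≤ k → k < (g * a⁻¹ * g).toWord.length - g.toWord.length →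
        fn (g * a⁻¹ * g).toWord k = inv' (fn a.toWord (c - k)) := by
  obtain ⟨p1, q1, s1, h1, h2, h3, h4⟩ := mul_right_structure g a⁻¹
  obtain ⟨p2, q2, s2, h5, h6, h7, h8⟩ := mul_left_structure g (a⁻¹ * g)
  rw [← mul_assoc] at h6
  rw [toWord_inv] at h1
  have l1 : a.toWord.length = s1.length + p1.length := by
    have := congrArg List.length h1
    rwa [invRev_length, List.length_append] at this
  have l2 : p2.length + s2.length = s1.length + q1.length := by
    rw [h2] at h5
    have := congrArg List.length h5
    rw [List.length_append, List.length_append] at this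
    omega
  have l3 : (g * a⁻¹ * g).toWord.length = q2.length + s2.length := by
    have := congrArg List.length h6
    rwa [List.length_append] at this
  refine ⟨a.toWord.length - 1 + q2.length - p2.length, ?_, ?_, ?_⟩
  · rw [l1, l3, abs_le]; push_cast; constructor <;> omega
  · rw [l1, l3, abs_le]; push_cast; constructor <;> omega
  · intro k hk1 hk2
    rw [l3] at hk2
    rw [h6]
    have e1 : fn (q2 ++ s2) k = fn s2 (k - q2.length) := by
      have := fn_append_right q2 s2 (k - q2.length) (by omega)
      rw [← this]; congr 1; ring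
    have e2 : fn s2 (k - q2.length) = fn (s1 ++ q1) (k - q2.length + p2.length) := by
      rw [← h2, h5, fn_append_right p2 s2 _ (by omega)]
    have e3 : fn (s1 ++ q1) (k - q2.length + p2.length) = fn s1 (k - q2.length + p2.length) := by
      apply fn_append_left
      omega
    have e4 : fn s1 (k - q2.length + p2.length) = fn (invRev a.toWord) (k - q2.length + p2.length) := by
      rw [h1, fn_append_left]
      omega
    rw [e1, e2, e3, e4, fn_invRev]
    congr 2
    ring

end Pool.Agent.Work.MP_5a7c5b_co
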