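import Mathlib
import Pool.Agent.Work.MP_5a7c5b_co.Final

set_option autoImplicit false

/-! Explicit number of colours for the free group of rank two. -/

namespace Pool.Agent.Work.MP_5a7c5b_co

open FreeGroup

/-- eight colours suffice (the argument of `main` in `Final.lean`, with the number kept) -/
theorem main_eight :
    ∃ c : FreeGroup (Fin 2) → Fin 8,
      ∀ A : Set (FreeGroup (Fin 2)), A.Infinite →
        (∃ g : FreeGroup (Fin 2), A = (fun a => g * a⁻¹ * g) '' A) →
          ¬ ∃ i : Fin 8, ∀ a ∈ A, c a = i := by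
  classical
  choose τ hτ using colN_ne
  -- slowly growing stage function
  obtain ⟨t, ht1, ht2⟩ : ∃ t : ℕ → ℕ, (∀ n, τ n ≤ t n) ∧ ∀ n, t n + (2 * n + 1) ≤ t (n + 1) := by
    let t : ℕ → ℕ := fun n => Nat.rec (τ 0) (fun m ih => ih + (2 * m + 1) + τ (m + 1)) n
    have t0 : t 0 = τ 0 := rfl
    have tsucc : ∀ n, t (n + 1) = t n + (2 * n + 1) + τ (n + 1) := fun n => rfl
    refine ⟨t, ?_, ?_⟩
    · intro n
      cases n with
      | zero => exact le_rfl
      | succ n => rw [tsucc]; omega
    · intro n; rw [tsucc]; omega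
  have hmono : Monotone t := monotone_nat_of_le_succ (fun n => by have := ht2 n; omega)
  have hge : ∀ n, n ≤ t n := by
    intro n
    induction n with
    | zero => omega
    | succ n ih => have := ht2 n; omega
  obtain ⟨S, hS1, hS2, hS3⟩ : ∃ S : ℕ → ℕ, (∀ m, t 0 ≤ m → t (S m) ≤ m) ∧
      (∀ m, m < t (S m + 1)) ∧ (∀ m n, t n ≤ m → n ≤ S m) := by
    refine ⟨fun m => Nat.findGreatest (fun n => t n ≤ m) m, ?_, ?_, ?_⟩
    · intro m hm
      have := Nat.findGreatest_spec (P := fun n => t n ≤ m) (m := 0) (n := m) (Nat.zero_le m) hm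
      exact this
    · intro m
      by_contra hcon
      push Not at hcon
      have h1 : Nat.findGreatest (fun n => t n ≤ m) m + 1 ≤ m := le_trans (hge _) hcon
      have h2 : Nat.findGreatest (fun n => t n ≤ m) m + 1 ≤
        Nat.findGreatest (fun n => t n ≤ m) m := Nat.le_findGreatest h1 hcon
      omega
    · intro m n h
      exact Nat.le_findGreatest (le_trans (hge _) h) h
  let c : FreeGroup (Fin 2) → Fin 8 := fun a =>
    finProdFinEquiv (m := 2) (n := 4)
      (⟨S a.toWord.length % 2, Nat.mod_lt _ (by norm_num)⟩, colN (S a.toWord.length) a)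
  refine ⟨c, ?_⟩
  rintro A hA ⟨g, hg⟩ ⟨i, hi⟩
  -- a long element of A
  have hlong : ∀ n : ℕ, ∃ a ∈ A, n ≤ a.toWord.length := by
    intro n
    by_contra hcon
    push Not at hcon
    apply hA
    have hfin : {l : List (Fin 2 × Bool) | l.length ≤ n}.Finite := List.finite_length_le _ _
    have : A ⊆ toWord ⁻¹' {l : List (Fin 2 × Bool) | l.length ≤ n} := by
      intro a ha
      exact (hcon a ha).le
    exact (hfin.preimage (toWord_injective.injOn)).subset this
  set G := g.toWord.length with hG
  obtain ⟨a, haA, ha⟩ := hlong (t (G + 3) + 2 * G)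
  have hbA : g * a⁻¹ * g ∈ A := by
    rw [hg]
    exact ⟨a, haA, rfl⟩
  have hcab : c a = c (g * a⁻¹ * g) := by rw [hi a haA, hi _ hbA]
  obtain ⟨-, -, hlen, -⟩ := reflect_structure g a
  rw [abs_le, ← hG] at hlen
  set b := g * a⁻¹ * g with hb
  have hprod := finProdFinEquiv.injective hcab
  rw [Prod.mk.injEq] at hprod
  obtain ⟨hpar, hcol⟩ := hprod
  have hpar' : S a.toWord.length % 2 = S b.toWord.length % 2 := by
    simpa using congrArg Fin.val hpar
  have ha1 : t (G + 3) ≤ a.toWord.length := by omega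
  have hb1 : t (G + 3) ≤ b.toWord.length := by omega
  have hSa := hS3 _ _ ha1
  have hSb := hS3 _ _ hb1
  have h0 : t 0 ≤ t (G + 3) := hmono (Nat.zero_le _)
  have hSa1 := hS1 _ (h0.trans ha1)
  have hSb1 := hS1 _ (h0.trans hb1)
  have hSa2 := hS2 a.toWord.length
  have hSb2 := hS2 b.toWord.length
  rcases lt_trichotomy (S a.toWord.length) (S b.toWord.length) with h | h | h
  · have h2 : S a.toWord.length + 1 + 1 ≤ S b.toWord.length := by omega
    have h3 := hmono h2
    have h4 := ht2 (S a.toWord.length + 1)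
    omega
  · rw [← h] at hcol
    exact hτ _ a g (by omega) ((ht1 _).trans hSa1) hcol
  · have h2 : S b.toWord.length + 1 + 1 ≤ S a.toWord.length := by omega
    have h3 := hmono h2
    have h4 := ht2 (S b.toWord.length + 1)
    omega

end Pool.Agent.Work.MP_5a7c5b_co
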